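import Mathlib
import Pool.Agent.V11310.Colored4c

namespace Pool.Agent.Results.MP_b3d406_nt.Automatic

open Pool.Agent.V11310.Colored4 Pool.Agent.V11310.Colored4c

/-- The 4-kernel of a sequence of natural numbers. -/
def kernel4 (e : ℕ → ℕ) : Set (ℕ → ℕ) :=
  {f | ∃ i j, j < 4 ^ i ∧ f = fun n => e (4 ^ i * n + j)}

lemma isGreatest_four (k : ℕ) {M : ℤ} (hM : M % 2 = 1) :
    IsGreatest {s : ℕ | (4 : ℤ) ^ s ∣ 2 ^ k * M} (k / 2) := by
  constructor
  · change (4 : ℤ) ^ (k / 2) ∣ 2 ^ k * M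
    apply Dvd.dvd.mul_right
    rw [show (4 : ℤ) = 2 ^ 2 by norm_num, ← pow_mul]
    exact pow_dvd_pow 2 (by omega)
  · intro s hs
    change (4 : ℤ) ^ s ∣ 2 ^ k * M at hs
    by_contra h
    rw [show (4 : ℤ) = 2 ^ 2 by norm_num, ← pow_mul] at hs
    have h1 : (2 : ℤ) ^ (k + 1) ∣ 2 ^ k * M := (pow_dvd_pow 2 (by omega)).trans hs
    rw [pow_succ] at h1
    have := (mul_dvd_mul_iff_left (by positivity)).1 h1
    omega

/-- For every `m ≥ 1` with `m ≢ 6 mod 8` the sequence `(φ₄(S_{4,m}(n)))_{n ≥ 0}` is well defined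
and 4-automatic (its 4-kernel is finite). -/
theorem result (m : ℕ) (hm : 0 < m) (h6 : m % 8 ≠ 6) :
    ∃ e : ℕ → ℕ, (∀ n, IsGreatest {s : ℕ | (4 : ℤ) ^ s ∣ S 4 m n} (e n)) ∧
      (kernel4 e).Finite := by
  obtain ⟨g, hg, hS⟩ := nu2 m hm h6
  have hex : ∀ n, ∃ s, IsGreatest {s : ℕ | (4 : ℤ) ^ s ∣ S 4 m n} s ∧
      ∀ t w, w % 2 = 1 → n = 2 ^ t * w → s = g t / 2 := by
    intro n
    rcases Nat.eq_zero_or_pos n with rfl | hn
    · refine ⟨0, ?_, ?_⟩
      · rw [S_zero]
        have := isGreatest_four 0 (M := 1) (by norm_num)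
        simpa using this
      · intro t w hw h
        exfalso
        have : 0 < 2 ^ t * w := Nat.mul_pos (by positivity) (by omega)
        omega
    · obtain ⟨t, w, hw, rfl⟩ := Nat.exists_eq_pow_mul_and_not_dvd (n := n) (by omega) 2
        (by norm_num)
      obtain ⟨M, hM, h1⟩ := hS t w (by omega)
      refine ⟨g t / 2, ?_, ?_⟩
      · rw [h1]
        exact isGreatest_four _ hM
      · intro t' w' hw' h'
        obtain ⟨M', hM', h2⟩ := hS t' w' hw'
        have h3 := isGreatest_four (g t) hM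
        have h4 := isGreatest_four (g t') hM'
        rw [← h1] at h3
        rw [← h2, ← h'] at h4
        exact h3.unique h4
  choose e he using hex
  refine ⟨e, fun n => (he n).1, ?_⟩
  have hfin := kernel_finite e (fun t => g t / 2)
    (fun t w hw => (he (2 ^ t * w)).2 t w hw rfl)
    (fun t ht => by rw [hg t ht])
  refine hfin.subset ?_
  rintro f ⟨i, j, hj, rfl⟩
  exact ⟨2 * i, j, by rw [pow_mul]; simpa using hj, by rw [pow_mul]; norm_num⟩

end Pool.Agent.Results.MP_b3d406_nt.Automatic
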